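import Pool.Agent.H7.KM.Fam
import Pool.Agent.H94.KM.Uniq
import Pool.Agent.H59.KY.Basic

/-!
The crystals with rotation generated by a highest element; generation of the folded crystal and
the components of tensor products.
-/

set_option autoImplicit false

open scoped Classical

namespace Pool.Agent.H7.KM

open Pool.Agent.H59.KY Pool.Agent.H94.KM

section General

variable {Y : Cartan}

theorem gen_highest {X : Crystal Y} {u : X.B} (hu : Gen X u) (b : X.B)
    (h : ∀ i, X.e i b = none) : b = u := by
  obtain ⟨l, hl⟩ := hu.2 b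
  cases l with
  | nil => exact (Option.some.inj hl).symm
  | cons i l =>
    change (X.fword l u).bind (X.f i) = some b at hl
    obtain ⟨b1, _, h3⟩ := Option.bind_eq_some_iff.mp hl
    have h4 := (X.f_iff i b1 b).mp h3
    rw [h i] at h4
    exact absurd h4 (by simp)

theorem e_none_of_eps (X : Crystal Y) (i : Y.I) (b : X.B) (h : X.eps i b = 0) :
    X.e i b = none := by
  cases h1 : X.e i b with
  | none => rfl
  | some c =>
    have := X.eps_some i b c h1
    omega

theorem f_none_of_phi (X : Crystal Y) (i : Y.I) (b : X.B) (h : X.phi i b = 0) :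
    X.f i b = none := by
  cases h1 : X.f i b with
  | none => rfl
  | some c =>
    have := X.phi_some i b c h1
    omega

theorem length_eq (X : Crystal Y) (l l' : List Y.I) (u b : X.B) (h : X.fword l u = some b)
    (h' : X.fword l' u = some b) : l.length = l'.length := by
  have h1 := wt_fword X l u b h
  have h2 := wt_fword X l' u b h'
  have h3 : Y.root ((fun j => (l.count j : ℤ)) + -(fun j => (l'.count j : ℤ))) = 0 := by
    rw [root_add, root_neg]
    have h4 : Y.root (fun j => (l.count j : ℤ)) = Y.root (fun j => (l'.count j : ℤ)) := by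
      have h5 := h1.symm.trans h2
      exact sub_right_injective h5
    rw [h4, add_neg_cancel]
  have h4 := root_indep _ h3
  have h5 : l.Perm l' := by
    rw [List.perm_iff_count]
    intro j
    have h6 := congrFun h4 j
    rw [Pi.add_apply, Pi.neg_apply, Pi.zero_apply] at h6
    omega
  exact h5.length_eq

/-- relabelling a morphism -/
def rmor {X X' : Crystal Y} (g : Mor X X') (t : Y.I → Y.I)
    (ht : ∀ k l, Y.A (t k) (t l) = Y.A k l) : Mor (relabel X t ht) (relabel X' t ht) where
  map := g.map
  map_e := fun k b => g.map_e (t k) b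
  map_f := fun k b => g.map_f (t k) b
  map_wt := fun b => funext (fun k => congrFun (g.map_wt b) (t k))

end General

variable {C : Cartan} {S : Sym C}

theorem RC.comm {R R' : RC S} {u : R.X.B} (hu : Gen R.X u) (g : Mor R.X R'.X)
    (h : g.map (R.m u) = R'.m (g.map u)) (b : R.X.B) : g.map (R.m b) = R'.m (g.map b) := by
  have h1 := mor_ext hu (Mor.comp (rmor g S.rot S.rot_A) R.g) (Mor.comp R'.g g) h
  exact congrFun h1 b

/-- a crystal with a rotation, generated by a highest element -/
structure FB (S : Sym C) (nu : C.I → ℕ) where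
  R : RC S
  u : R.X.B
  gen : Gen R.X u
  wt : ∀ k, R.X.wt u k = nu (S.pr k)
  fix : R.m u = u

theorem exists_FB (S : Sym C) (nu : C.I → ℕ) : Nonempty (FB S nu) := by
  obtain ⟨X, u, hX, hu, hw⟩ := Pool.Agent.H73.KM.exists_hw S.sl (fun k => nu (S.pr k))
  obtain ⟨g, hg, -⟩ := St.exists_mor S.sl hX (St.relabel hX S.rot S.rot_A S.rot.injective) hu
    (u' := u) (fun i => hu.1 (S.rot i)) (by
      funext k
      show X.wt u k = X.wt u (S.rot k)
      rw [hw, hw, S.pr_rot])
  exact ⟨{ R := { X := X, st := hX, g := g }, u := u, gen := hu, wt := hw, fix := hg }⟩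

namespace FB

variable {nu : C.I → ℕ} (T : FB S nu)

/-- the highest element of the folded crystal -/
def top : T.R.fold.B := (⟨T.u, T.fix⟩ : T.R.Fx)

theorem wt_top (i : C.I) : T.R.fold.wt T.top i = nu i := T.wt (S.k0 i)

theorem e_top (i : C.I) : T.R.fold.e i T.top = none := by
  refine e_none_of_eps _ i _ ?_
  show T.R.X.eps (S.k0 i) T.u = 0
  exact T.R.X.eps_none _ _ (T.gen.1 _)

theorem fold_gen_aux (n : ℕ) : ∀ (b : T.R.fold.B) (l : List S.Y.I), l.length = n →
    T.R.X.fword l T.u = some b.1 → ∃ l' : List C.I, T.R.fold.fword l' T.top = some b := by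
  induction n using Nat.strong_induction_on with
  | _ n ih =>
    intro b l hn hl
    by_cases h : ∀ k, T.R.X.e k b.1 = none
    · have h1 := gen_highest T.gen b.1 h
      refine ⟨[], ?_⟩
      show some T.top = some b
      exact congrArg some (Subtype.ext h1.symm)
    · push Not at h
      obtain ⟨k, hk⟩ := h
      have h1 : 0 < T.R.X.eps k b.1 := by
        by_contra h2
        exact hk (e_none_of_eps _ _ _ (by omega))
      rw [T.R.eps_const b.1 b.2 k] at h1
      obtain ⟨c, hc⟩ := T.R.ew_exists (S.pr k) b.1 b.2 h1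
      have hcf := T.R.fixed_of_e (S.pr k) b.1 c b.2 hc
      have hcb := (T.R.fw_iff (S.pr k) c b.1).mpr hc
      obtain ⟨l1, hl1⟩ := T.gen.2 c
      have h3 : T.R.X.fword (S.orb (S.pr k) ++ l1) T.u = some b.1 := by
        rw [fword_append, hl1]
        exact hcb
      have h4 := length_eq T.R.X _ _ _ _ hl h3
      rw [List.length_append] at h4
      have h5 : 0 < (S.orb (S.pr k)).length :=
        List.length_pos_of_mem (RC.k0_mem (S.pr k))
      obtain ⟨l', hl'⟩ := ih l1.length (by omega) (⟨c, hcf⟩ : T.R.Fx) l1 rfl hl1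
      refine ⟨S.pr k :: l', ?_⟩
      show (T.R.fold.fword l' T.top).bind (T.R.fold.f (S.pr k)) = some b
      rw [hl']
      exact (T.R.lift_eq_some _ _).mpr hcb

theorem fold_gen (b : T.R.fold.B) : ∃ l : List C.I, T.R.fold.fword l T.top = some b := by
  obtain ⟨l, hl⟩ := T.gen.2 b.1
  exact T.fold_gen_aux l.length b l rfl hl

theorem fold_Gen : Gen T.R.fold T.top := ⟨T.e_top, T.fold_gen⟩

end FB

/-- highest elements of a tensor product generate copies of members of the family -/
theorem fold_tens (F : ∀ nu, FB S nu) (R R' : RC S) (z : (R.fold.tensor R'.fold).B)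
    (hz : ∀ i, (R.fold.tensor R'.fold).e i z = none) :
    ∃ nu, ∃ g : Mor (F nu).R.fold (R.fold.tensor R'.fold), g.map (F nu).top = z := by
  obtain ⟨a, b⟩ := z
  have hm : (R.tensor R').m (a.1, b.1) = (a.1, b.1) := Prod.ext a.2 b.2
  have h0 : ∀ k, (R.tensor R').X.eps k (a.1, b.1) = 0 := by
    intro k
    rw [(R.tensor R').eps_const (a.1, b.1) hm k]
    exact (R.fold.tensor R'.fold).eps_none (S.pr k) (a, b) (hz (S.pr k))
  have hw : ∀ k, (R.tensor R').X.wt (a.1, b.1) k =
      (R.tensor R').X.phi (S.k0 (S.pr k)) (a.1, b.1) := by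
    intro k
    rw [(R.tensor R').wt_const (a.1, b.1) hm k]
    have h1 := (R.tensor R').X.phi_eps (S.k0 (S.pr k)) (a.1, b.1)
    have h2 := h0 (S.k0 (S.pr k))
    omega
  refine ⟨fun i => (R.tensor R').X.phi (S.k0 i) (a.1, b.1), ?_⟩
  obtain ⟨g, hg, -⟩ := St.exists_mor S.sl
    (F (fun i => (R.tensor R').X.phi (S.k0 i) (a.1, b.1))).R.st (R.tensor R').st
    (F (fun i => (R.tensor R').X.phi (S.k0 i) (a.1, b.1))).gen (u' := (a.1, b.1))
    (fun k => e_none_of_eps _ k _ (h0 k)) (by
      funext k
      rw [hw k]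
      exact (F (fun i => (R.tensor R').X.phi (S.k0 i) (a.1, b.1))).wt k)
  have hc := RC.comm (F (fun i => (R.tensor R').X.phi (S.k0 i) (a.1, b.1))).gen (R' := R.tensor R')
    g (by rw [(F (fun i => (R.tensor R').X.phi (S.k0 i) (a.1, b.1))).fix, hg, hm])
  refine ⟨Mor.comp (RC.tmor R R') (RC.mor (R' := R.tensor R') g hc), ?_⟩
  have h1 : (RC.mor (R' := R.tensor R') g hc).map
      (F (fun i => (R.tensor R').X.phi (S.k0 i) (a.1, b.1))).top =
      (⟨(a.1, b.1), hm⟩ : (R.tensor R').Fx) := Subtype.ext hg
  show (RC.tmor R R').map ((RC.mor (R' := R.tensor R') g hc).map _) = _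
  rw [h1]
  rfl

end Pool.Agent.H7.KM
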