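import Pool.Agent.H7.KM.Fold
import Pool.Agent.H94.KM.Tensor
import Pool.Agent.H73.KM.Exist
import Pool.Agent.H59.KY.Comp

/-!
Morphisms and tensor products of folded crystals; the folded family.
-/

set_option autoImplicit false

open scoped Classical

namespace Pool.Agent.H7.KM

open Pool.Agent.H59.KY Pool.Agent.H94.KM

section General

variable {Y : Cartan}

/-- a map which commutes with the raising operators and preserves weights is a morphism -/
def morOfE {X X' : Crystal Y} (h : X.B → X'.B)
    (he : ∀ i b, X'.e i (h b) = (X.e i b).map h) (hw : ∀ b, X'.wt (h b) = X.wt b) :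
    Mor X X' where
  map := h
  map_e := he
  map_wt := hw
  map_f := by
    intro i b
    have heps : ∀ b, X'.eps i (h b) = X.eps i b := by
      intro b
      refine X.ind_e i (fun b => X'.eps i (h b) = X.eps i b) ?_ ?_ b
      · intro b hb
        have h1 := he i b
        rw [hb] at h1
        rw [X.eps_none i b hb, X'.eps_none i _ h1]
      · intro b b' hb ih
        have h1 := he i b
        rw [hb] at h1
        rw [X.eps_some i b b' hb, X'.eps_some i _ _ h1, ih]
    have hphi : X'.phi i (h b) = X.phi i b := by
      have h1 := X.phi_eps i b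
      have h2 := X'.phi_eps i (h b)
      rw [heps, hw] at h2
      omega
    cases hb : X.f i b with
    | none =>
      have h1 := X.phi_none i b hb
      cases hb' : X'.f i (h b) with
      | none => rfl
      | some c =>
        have h2 := X'.phi_some i _ _ hb'
        omega
    | some b' =>
      have h1 := (X.f_iff i b b').mp hb
      have h2 := he i b'
      rw [h1] at h2
      exact (X'.f_iff i (h b) (h b')).mpr h2

/-- words in a tensor product, acting on the left factor -/
theorem dfword_left {X Z : Crystal Y} (hX : St X) (l : List Y.I) (hl : l.Pairwise (Orth Y))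
    (a : X.B) (b : Z.B) (h : ∀ k ∈ l, Z.phi k b < X.eps k a) :
    (dual (X.tensor Z)).fword l (a, b) = ((dual X).fword l a).map (fun a' => (a', b)) := by
  induction l with
  | nil => rfl
  | cons k l ih =>
    rw [List.pairwise_cons] at hl
    have h1 := ih hl.2 (fun m hm => h m (List.mem_cons_of_mem _ hm))
    show ((dual (X.tensor Z)).fword l (a, b)).bind ((X.tensor Z).e k) =
      (((dual X).fword l a).bind (X.e k)).map (fun a' => (a', b))
    rw [h1]
    cases h2 : (dual X).fword l a with
    | none => rfl
    | some a1 =>
      have h3 : X.eps k a1 = X.eps k a :=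
        ((St.orthC (St.dual hX)).fword_out l a a1 h2 k hl.1).1
      have h4 := h k (List.mem_cons_self)
      show (X.tensor Z).e k (a1, b) = (X.e k a1).map (fun a' => (a', b))
      show (if Z.phi k b < X.eps k a1 then (X.e k a1).map (fun a => (a, b))
        else (Z.e k b).map (fun b => (a1, b))) = _
      rw [if_pos (by omega)]

/-- words in a tensor product, acting on the right factor -/
theorem dfword_right {X Z : Crystal Y} (hZ : St Z) (l : List Y.I) (hl : l.Pairwise (Orth Y))
    (a : X.B) (b : Z.B) (h : ∀ k ∈ l, X.eps k a ≤ Z.phi k b) :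
    (dual (X.tensor Z)).fword l (a, b) = ((dual Z).fword l b).map (fun b' => (a, b')) := by
  induction l with
  | nil => rfl
  | cons k l ih =>
    rw [List.pairwise_cons] at hl
    have h1 := ih hl.2 (fun m hm => h m (List.mem_cons_of_mem _ hm))
    show ((dual (X.tensor Z)).fword l (a, b)).bind ((X.tensor Z).e k) =
      (((dual Z).fword l b).bind (Z.e k)).map (fun b' => (a, b'))
    rw [h1]
    cases h2 : (dual Z).fword l b with
    | none => rfl
    | some b1 =>
      have h3 : Z.phi k b1 = Z.phi k b :=
        ((St.orthC (St.dual hZ)).fword_out l b b1 h2 k hl.1).2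
      have h4 := h k (List.mem_cons_self)
      show (if Z.phi k b1 < X.eps k a then (X.e k a).map (fun a => (a, b1))
        else (Z.e k b1).map (fun b => (a, b))) = _
      rw [if_neg (by omega)]
      rfl

end General

variable {C : Cartan} {S : Sym C}

/-- folding of a morphism -/
noncomputable def RC.mor {R R' : RC S} (g : Mor R.X R'.X)
    (hg : ∀ b, g.map (R.m b) = R'.m (g.map b)) : Mor R.fold R'.fold :=
  morOfE (X := R.fold) (X' := R'.fold)
    (fun b => (⟨g.map b.1, by rw [← hg, b.2]⟩ : R'.Fx))
    (by
      intro i b
      have h1 : R'.ew i (g.map b.1) = (R.ew i b.1).map g.map := (dmor g).fword_map (S.orb i) b.1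
      show R'.lift (R'.ew i (g.map b.1)) = (R.lift (R.ew i b.1)).map _
      cases h2 : R.ew i b.1 with
      | none =>
        rw [h2] at h1
        rw [h1]
        rfl
      | some c =>
        rw [h2] at h1
        have h3 : R.m c = c := R.fixed_of_e i b.1 c b.2 h2
        have h4 : R.lift (some c) = some ⟨c, h3⟩ := (R.lift_eq_some _ _).mpr rfl
        rw [h1, h4]
        exact (R'.lift_eq_some _ _).mpr rfl)
    (by
      intro b
      funext i
      exact congrFun (g.map_wt b.1) (S.k0 i))

/-- tensor product of crystals with a rotation -/
noncomputable def RC.tensor (R R' : RC S) : RC S where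
  X := R.X.tensor R'.X
  st := St.tensor S.sl R.st R'.st
  g :=
    { map := fun z => (R.g.map z.1, R'.g.map z.2)
      map_e := fun i z => by
        have h := (Mor.comp (Mor.right (relabel R.X S.rot S.rot_A) R'.g)
          (Mor.left R.g R'.X)).map_e i z
        exact h
      map_f := fun i z => by
        have h := (Mor.comp (Mor.right (relabel R.X S.rot S.rot_A) R'.g)
          (Mor.left R.g R'.X)).map_f i z
        exact h
      map_wt := fun z => by
        have h := (Mor.comp (Mor.right (relabel R.X S.rot S.rot_A) R'.g)
          (Mor.left R.g R'.X)).map_wt z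
        exact h }

theorem RC.tensor_m (R R' : RC S) (z : (R.tensor R').X.B) :
    (R.tensor R').m z = (R.m z.1, R'.m z.2) := rfl

/-- the folding of a tensor product is the tensor product of the foldings -/
noncomputable def RC.tmor (R R' : RC S) : Mor (R.tensor R').fold (R.fold.tensor R'.fold) :=
  morOfE (X := (R.tensor R').fold) (X' := R.fold.tensor R'.fold)
    (fun z => ((⟨z.1.1, (Prod.mk.inj z.2).1⟩ : R.Fx), (⟨z.1.2, (Prod.mk.inj z.2).2⟩ : R'.Fx)))
    (by
      intro i z
      obtain ⟨⟨a, b⟩, hz⟩ := z
      have ha : R.m a = a := (Prod.mk.inj hz).1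
      have hb : R'.m b = b := (Prod.mk.inj hz).2
      show (if R'.X.phi (S.k0 i) b < R.X.eps (S.k0 i) a then
          (R.lift (R.ew i a)).map (fun a' => (a', (⟨b, hb⟩ : R'.Fx)))
        else (R'.lift (R'.ew i b)).map (fun b' => ((⟨a, ha⟩ : R.Fx), b'))) =
        ((R.tensor R').lift ((R.tensor R').ew i (a, b))).map _
      by_cases hc : R'.X.phi (S.k0 i) b < R.X.eps (S.k0 i) a
      · rw [if_pos hc]
        have h1 : (R.tensor R').ew i (a, b) = (R.ew i a).map (fun a' => (a', b)) := by
          refine dfword_left R.st (S.orb i) (S.orb_pairwise i) a b (fun k hk => ?_)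
          rw [R.eps_const a ha k, R'.phi_const b hb k, (S.mem_orb i k).mp hk]
          exact hc
        rw [h1]
        cases h2 : R.ew i a with
        | none => rfl
        | some c =>
          have h3 : R.m c = c := R.fixed_of_e i a c ha h2
          have h4 : R.lift (some c) = some ⟨c, h3⟩ := (R.lift_eq_some _ _).mpr rfl
          have h5 : (R.tensor R').lift (some (c, b)) = some ⟨(c, b), Prod.ext h3 hb⟩ :=
            ((R.tensor R').lift_eq_some _ _).mpr rfl
          show (R.lift (some c)).map _ = ((R.tensor R').lift (some (c, b))).map _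
          rw [h4, h5]
          rfl
      · rw [if_neg hc]
        have h1 : (R.tensor R').ew i (a, b) = (R'.ew i b).map (fun b' => (a, b')) := by
          refine dfword_right R'.st (S.orb i) (S.orb_pairwise i) a b (fun k hk => ?_)
          rw [R.eps_const a ha k, R'.phi_const b hb k, (S.mem_orb i k).mp hk]
          omega
        rw [h1]
        cases h2 : R'.ew i b with
        | none => rfl
        | some c =>
          have h3 : R'.m c = c := R'.fixed_of_e i b c hb h2
          have h4 : R'.lift (some c) = some ⟨c, h3⟩ := (R'.lift_eq_some _ _).mpr rfl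
          have h5 : (R.tensor R').lift (some (a, c)) = some ⟨(a, c), Prod.ext ha h3⟩ :=
            ((R.tensor R').lift_eq_some _ _).mpr rfl
          show (R'.lift (some c)).map _ = ((R.tensor R').lift (some (a, c))).map _
          rw [h4, h5]
          rfl)
    (by
      intro z
      rfl)

end Pool.Agent.H7.KM
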