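import Pool.Agent.H7.KM.Mat

/-!
Unfolding of a Cartan matrix of finite type into a simply laced one.
-/

set_option autoImplicit false

open scoped Classical

namespace Pool.Agent.H7.KM

open Pool.Agent.H59.KY

/-- integral symmetriser data -/
structure Sym (C : Cartan) where
  n : C.I → ℕ
  npos : ∀ i, 0 < n i
  sym : ∀ i j, (n i : ℤ) * C.A i j = n j * C.A j i
  pos : ∀ x : C.I → ℚ, x ≠ 0 → 0 < ∑ i, ∑ j, (n i : ℚ) * C.A i j * x i * x j

theorem exists_sym (C : Cartan) : Nonempty (Sym C) := by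
  obtain ⟨n, h1, h2, h3⟩ := exists_int_sym C
  exact ⟨⟨n, h1, h2, h3⟩⟩

variable {C : Cartan} (S : Sym C)

include S in
theorem Sym.prod_lt_four {i j : C.I} (hij : i ≠ j) : C.A i j * C.A j i < 4 := by
  set a : ℚ := -(C.A i j : ℚ) with ha
  set b : ℚ := 2 with hb
  set x : C.I → ℚ := fun k => (if k = i then a else 0) + (if k = j then b else 0) with hx
  have hxne : x ≠ 0 := by
    intro h
    have h1 := congrFun h j
    simp only [hx, Pi.zero_apply, if_neg (Ne.symm hij), if_true, zero_add] at h1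
    norm_num [hb] at h1
  have h := S.pos x hxne
  have hsum : ∑ k, ∑ l, (S.n k : ℚ) * C.A k l * x k * x l =
      (S.n i : ℚ) * C.A i i * a * a + (S.n i : ℚ) * C.A i j * a * b +
      ((S.n j : ℚ) * C.A j i * b * a + (S.n j : ℚ) * C.A j j * b * b) := by
    simp only [hx, mul_add, add_mul, Finset.sum_add_distrib, mul_ite, ite_mul, mul_zero,
      zero_mul, Finset.sum_ite_eq', Finset.mem_univ, if_true]
    ring
  rw [hsum, C.diag, C.diag] at h
  have hnj : (0 : ℚ) < S.n j := by exact_mod_cast S.npos j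
  have h3 : (0 : ℚ) < 2 * S.n j * (4 - C.A i j * C.A j i) := by
    have : (S.n i : ℚ) * ((2 : ℤ) : ℚ) * a * a + (S.n i : ℚ) * C.A i j * a * b +
      ((S.n j : ℚ) * C.A j i * b * a + (S.n j : ℚ) * ((2 : ℤ) : ℚ) * b * b) =
      2 * S.n j * (4 - C.A i j * C.A j i) := by
      rw [ha, hb]
      push_cast
      ring
    linarith
  have h4 : (0 : ℚ) < 4 - C.A i j * C.A j i := by
    by_contra hcon
    push Not at hcon
    have : 2 * (S.n j : ℚ) * (4 - C.A i j * C.A j i) ≤ 0 :=
      mul_nonpos_of_nonneg_of_nonpos (by positivity) hcon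
    linarith
  have h5 : ((C.A i j * C.A j i : ℤ) : ℚ) < ((4 : ℤ) : ℚ) := by
    push_cast
    linarith
  exact_mod_cast h5

include S in
theorem Sym.neg_one {i j : C.I} (hij : i ≠ j) (h0 : C.A i j ≠ 0) :
    C.A i j = -1 ∨ C.A j i = -1 := by
  have h1 := S.prod_lt_four hij
  have h2 := C.off i j hij
  have h3 := C.off j i (Ne.symm hij)
  have h4 : C.A j i ≠ 0 := fun h => h0 (C.zero j i h)
  have h5 : C.A i j ≤ -1 := by omega
  have h6 : C.A j i ≤ -1 := by omega
  by_contra hcon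
  push Not at hcon
  have h7 : C.A i j ≤ -2 := by omega
  have h8 : C.A j i ≤ -2 := by omega
  nlinarith

theorem Sym.gcd_mul {i j : C.I} (hij : i ≠ j) (h0 : C.A i j ≠ 0) :
    (S.n j : ℤ) = -C.A i j * (Nat.gcd (S.n i) (S.n j) : ℕ) := by
  have hs := S.sym i j
  rcases S.neg_one hij h0 with h | h
  · -- `n_i = n_j * (-A_ji)`, so the gcd is `n_j`
    have h1 : (S.n i : ℤ) = S.n j * (-C.A j i) := by rw [h] at hs; linarith
    have h2 : (S.n j : ℤ) ∣ (S.n i : ℤ) := ⟨_, h1⟩
    have h3 : S.n j ∣ S.n i := by exact_mod_cast h2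
    rw [Nat.gcd_eq_right h3, h]
    ring
  · have h1 : (S.n j : ℤ) = S.n i * (-C.A i j) := by rw [h] at hs; linarith
    have h2 : (S.n i : ℤ) ∣ (S.n j : ℤ) := ⟨_, h1⟩
    have h3 : S.n i ∣ S.n j := by exact_mod_cast h2
    rw [Nat.gcd_eq_left h3, h1]
    ring

/-- the entries of the unfolded matrix -/
noncomputable def Sym.YA (k l : Σ i : C.I, Fin (S.n i)) : ℤ :=
  if k = l then 2 else if k.1 ≠ l.1 ∧ C.A k.1 l.1 ≠ 0 ∧
    (k.2 : ℕ) % Nat.gcd (S.n k.1) (S.n l.1) = (l.2 : ℕ) % Nat.gcd (S.n k.1) (S.n l.1) then -1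
  else 0

theorem Sym.YA_self (k : Σ i : C.I, Fin (S.n i)) : S.YA k k = 2 := by
  unfold Sym.YA
  rw [if_pos rfl]

theorem Sym.YA_symm (k l : Σ i : C.I, Fin (S.n i)) : S.YA k l = S.YA l k := by
  unfold Sym.YA
  by_cases h : k = l
  · rw [if_pos h, if_pos h.symm]
  · rw [if_neg h, if_neg (Ne.symm h)]
    by_cases h2 : k.1 ≠ l.1 ∧ C.A k.1 l.1 ≠ 0 ∧
        (k.2 : ℕ) % Nat.gcd (S.n k.1) (S.n l.1) = (l.2 : ℕ) % Nat.gcd (S.n k.1) (S.n l.1)
    · rw [if_pos h2, if_pos]
      refine ⟨Ne.symm h2.1, fun h3 => h2.2.1 (C.zero _ _ h3), ?_⟩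
      rw [Nat.gcd_comm]
      exact h2.2.2.symm
    · rw [if_neg h2, if_neg]
      rintro ⟨h3, h4, h5⟩
      refine h2 ⟨Ne.symm h3, fun h6 => h4 (C.zero _ _ h6), ?_⟩
      rw [Nat.gcd_comm]
      exact h5.symm

theorem Sym.YA_off (k l : Σ i : C.I, Fin (S.n i)) (h : k ≠ l) : S.YA k l = 0 ∨ S.YA k l = -1 := by
  unfold Sym.YA
  rw [if_neg h]
  split_ifs
  · exact Or.inr rfl
  · exact Or.inl rfl

theorem count_fin (N g r : ℕ) (hg : 0 < g) (hd : g ∣ N) :
    (Finset.univ.filter (fun c : Fin N => r % g = (c : ℕ) % g)).card = N / g := by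
  have h1 : (Finset.univ.filter (fun c : Fin N => r % g = (c : ℕ) % g)).card =
      N.count (fun x => x ≡ r [MOD g]) := by
    rw [Nat.count_eq_card_filter_range]
    refine Finset.card_bij (fun c _ => (c : ℕ)) ?_ ?_ ?_
    · intro c hc
      rw [Finset.mem_filter] at hc
      rw [Finset.mem_filter, Finset.mem_range]
      exact ⟨c.2, hc.2.symm⟩
    · intro a _ b _ hab
      exact Fin.ext hab
    · intro b hb
      rw [Finset.mem_filter, Finset.mem_range] at hb
      refine ⟨⟨b, hb.1⟩, ?_, rfl⟩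
      rw [Finset.mem_filter]
      exact ⟨Finset.mem_univ _, hb.2.symm⟩
  rw [h1, Nat.count_modEq_card _ hg]
  have : N % g = 0 := Nat.mod_eq_zero_of_dvd hd
  rw [this, if_neg (Nat.not_lt_zero _), add_zero]

theorem Sym.rowsum (i j : C.I) (c : Fin (S.n i)) :
    ∑ c' : Fin (S.n j), S.YA ⟨i, c⟩ ⟨j, c'⟩ = C.A i j := by
  by_cases hij : i = j
  · subst hij
    rw [Finset.sum_eq_single c, S.YA_self, C.diag]
    · intro b _ hb
      unfold Sym.YA
      rw [if_neg, if_neg]
      · rintro ⟨h, -⟩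
        exact h rfl
      · intro h
        apply hb
        have := (Sigma.mk.inj_iff.mp h).2
        exact (eq_of_heq this).symm
    · intro h
      exact absurd (Finset.mem_univ c) h
  · have hne : ∀ c' : Fin (S.n j), (⟨i, c⟩ : Σ i : C.I, Fin (S.n i)) ≠ ⟨j, c'⟩ := by
      intro c' h
      exact hij (Sigma.mk.inj_iff.mp h).1
    by_cases h0 : C.A i j = 0
    · rw [h0]
      refine Finset.sum_eq_zero fun c' _ => ?_
      unfold Sym.YA
      rw [if_neg (hne c'), if_neg]
      rintro ⟨-, h, -⟩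
      exact h h0
    · have h1 : ∀ c' : Fin (S.n j), S.YA ⟨i, c⟩ ⟨j, c'⟩ =
          if (c : ℕ) % Nat.gcd (S.n i) (S.n j) = (c' : ℕ) % Nat.gcd (S.n i) (S.n j) then -1
          else 0 := by
        intro c'
        unfold Sym.YA
        rw [if_neg (hne c')]
        by_cases h2 : (c : ℕ) % Nat.gcd (S.n i) (S.n j) = (c' : ℕ) % Nat.gcd (S.n i) (S.n j)
        · rw [if_pos h2, if_pos ⟨hij, h0, h2⟩]
        · rw [if_neg h2, if_neg]
          rintro ⟨-, -, h⟩
          exact h2 h
      rw [Finset.sum_congr rfl fun c' _ => h1 c', ← Finset.sum_filter, Finset.sum_const,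
        count_fin _ _ _ (Nat.gcd_pos_of_pos_left _ (S.npos i)) (Nat.gcd_dvd_right _ _)]
      have h2 := S.gcd_mul hij h0
      have hgpos : 0 < Nat.gcd (S.n i) (S.n j) := Nat.gcd_pos_of_pos_left _ (S.npos i)
      obtain ⟨m, hm⟩ := Nat.gcd_dvd_right (S.n i) (S.n j)
      have h3 : S.n j / Nat.gcd (S.n i) (S.n j) = m :=
        Nat.div_eq_of_eq_mul_right hgpos hm
      rw [h3]
      have h4 : ((Nat.gcd (S.n i) (S.n j) : ℕ) : ℤ) * (m + C.A i j) = 0 := by
        have : (S.n j : ℤ) = (Nat.gcd (S.n i) (S.n j) : ℕ) * (m : ℤ) := by exact_mod_cast hm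
        linear_combination h2 - this
      have h5 : (m : ℤ) + C.A i j = 0 := by
        rcases mul_eq_zero.mp h4 with h | h
        · exfalso
          have : Nat.gcd (S.n i) (S.n j) = 0 := by exact_mod_cast h
          omega
        · exact h
      simp only [nsmul_eq_mul, mul_neg, mul_one]
      linarith

/-- the unfolded Cartan matrix is positive definite -/
theorem Sym.YA_pos (x : (Σ i : C.I, Fin (S.n i)) → ℚ) (hx : x ≠ 0) :
    0 < ∑ k, ∑ l, (S.YA k l : ℚ) * x k * x l := by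
  obtain ⟨v, hv, hMv⟩ := exists_pos_vec (fun i j => (S.n i : ℚ) * C.A i j)
    (fun i j hij => mul_nonpos_of_nonneg_of_nonpos (by positivity)
      (by exact_mod_cast C.off i j hij)) S.pos
  refine pos_of_vec (fun k l => (S.YA k l : ℚ)) (fun k l => by rw [S.YA_symm])
    (fun k l hkl => ?_) (fun k => v k.1) (fun k => hv k.1) (fun k => ?_) x hx
  · rcases S.YA_off k l hkl with h | h
    · rw [h]
      simp
    · rw [h]
      simp
  · obtain ⟨i, c⟩ := k
    rw [Fintype.sum_sigma]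
    have h1 : ∀ j, ∑ c' : Fin (S.n j), (S.YA ⟨i, c⟩ ⟨j, c'⟩ : ℚ) * v j = C.A i j * v j := by
      intro j
      rw [← Finset.sum_mul]
      have := S.rowsum i j c
      rw [← this]
      push_cast
      rfl
    rw [Finset.sum_congr rfl fun j _ => h1 j]
    have h2 := hMv i
    have h3 : (S.n i : ℚ) * ∑ j, (C.A i j : ℚ) * v j = 1 := by
      rw [← h2, Finset.mul_sum]
      refine Finset.sum_congr rfl fun j _ => by ring
    have h4 : (0 : ℚ) < S.n i := by exact_mod_cast S.npos i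
    by_contra hcon
    push Not at hcon
    have := mul_nonpos_of_nonneg_of_nonpos h4.le hcon
    linarith

/-- the unfolded Cartan matrix -/
noncomputable def Sym.Y : Cartan where
  I := Σ i : C.I, Fin (S.n i)
  fin := inferInstance
  A := S.YA
  diag := S.YA_self
  off := fun k l h => by
    rcases S.YA_off k l h with h | h <;> omega
  zero := fun k l h => by rw [S.YA_symm]; exact h
  pos := ⟨fun _ => 1, fun _ => one_pos, fun k l => by rw [S.YA_symm], fun x hx => by
    simpa only [one_mul] using S.YA_pos x hx⟩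

end Pool.Agent.H7.KM
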