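import Pool.Agent.H7.KM.Xi
import Pool.Agent.H94.KM.W0
import Pool.Agent.H73.KM.Fin

/-!
Every Cartan matrix of finite type has a family of crystals `B_λ`.
-/

set_option autoImplicit false

open scoped Classical

namespace Pool.Agent.H7.KM

open Pool.Agent.H59.KY Pool.Agent.H94.KM

variable {C : Cartan}

theorem hasB (C : Cartan) : HasB C := by
  intro lam
  obtain ⟨S⟩ := exists_sym C
  obtain ⟨F⟩ := exists_FB S lam
  exact ⟨F.R.fold, F.top, F.fold_Gen, F.wt_top⟩

/-- the lowest element -/
theorem exists_low {S : Sym C} {nu : C.I → ℕ} (F : FB S nu) (T : Star S) (w0 : C.Aut)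
    (hw0 : w0 ∈ C.W) (hal : ∀ i, w0 (C.al i) = - C.al (T.t i))
    (hmu : ∀ (mu : C.Wt) i, w0 mu i = - mu (T.t i)) :
    ∃ b' : F.R.fold.B, (∀ i, F.R.fold.f i b' = none) ∧
      ∀ i, F.R.fold.wt b' i = - (nu (T.t i) : ℤ) := by
  obtain ⟨l, hl⟩ := exists_word hw0
  obtain ⟨b', hb'⟩ := exists_wt_wprod F.R.fold l F.top
  rw [hl] at hb'
  refine ⟨b', fun i => ?_, fun i => ?_⟩
  · cases hc : F.R.fold.f i b' with
    | none => rfl
    | some c =>
      exfalso
      have h1 := F.R.fold.wt_f i b' c hc
      obtain ⟨c', hc'⟩ := exists_wt_wprod F.R.fold l c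
      rw [hl, h1, map_sub, hb', hal, sub_neg_eq_add] at hc'
      have h2 : w0 (w0 (F.R.fold.wt F.top)) = F.R.fold.wt F.top := by
        funext j
        rw [hmu, hmu, neg_neg, T.tt]
      rw [h2] at hc'
      obtain ⟨n, hn⟩ := wt_below F.fold_Gen c'
      rw [hn] at hc'
      have h3 : C.root (cst n + Pi.single (T.t i) 1) = 0 := by
        rw [root_add, root_single, one_smul]
        have h4 : F.R.fold.wt F.top - (C.root (cst n) + C.al (T.t i)) =
            F.R.fold.wt F.top - 0 := by
          rw [← sub_sub, hc', add_sub_cancel_right, sub_zero]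
        exact sub_right_inj.mp h4
      have h4 := congrFun (root_indep _ h3) (T.t i)
      rw [Pi.add_apply, Pi.single_eq_same] at h4
      have h5 : (0 : ℤ) ≤ cst n (T.t i) := Int.natCast_nonneg _
      have h6 : cst n (T.t i) + 1 = 0 := h4
      omega
  · rw [hb', hmu, F.wt_top]

/-- Every Cartan matrix of finite type has a family of crystals. -/
theorem family_exists (C : Cartan) : Nonempty (Family C) := by
  obtain ⟨S⟩ := exists_sym C
  obtain ⟨star, w0, hw0, hss, hal, hmu, hA, hn⟩ := exists_w0_of C (hasB C)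
    (fun X u h => Pool.Agent.H73.KM.finite_of_gen C X u h)
  let T : Star S := ⟨star, hss, hA, hn S⟩
  let F : ∀ nu, FB S nu := fun nu => Classical.choice (exists_FB S nu)
  have hJ : ∀ nu, Nonempty (Inv (F nu) T) := by
    intro nu
    obtain ⟨b', h1, h2⟩ := exists_low (F nu) T w0 hw0 hal hmu
    exact exists_Inv (F nu) T b' h1 h2
  let J : ∀ nu, Inv (F nu) T := fun nu => Classical.choice (hJ nu)
  exact ⟨
    { B := fun nu => (F nu).R.fold
      hw := fun nu => (F nu).top
      wt_hw := fun nu i => (F nu).wt_top i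
      e_hw := fun nu i => (F nu).e_top i
      gen := fun nu b => (F nu).fold_gen b
      tens := fun lam mu z hz => fold_tens F (F lam).R (F mu).R z hz
      star := star
      star_star := hss
      w0 := w0
      w0_mem := hw0
      w0_al := hal
      xi := fun nu => (J nu).xi
      xi_xi := fun nu b => (J nu).xi_xi b
      e_xi := fun nu i b => (J nu).e_xi i b
      f_xi := fun nu i b => (J nu).f_xi i b
      wt_xi := fun nu b => funext (fun i => ((J nu).wt_xi i b).trans (hmu _ i).symm) }⟩

end Pool.Agent.H7.KM
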