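import Pool.Agent.H7.KM.Rot

/-!
Relabelled crystals and the folding of a crystal with a rotation.
-/

set_option autoImplicit false

open scoped Classical

namespace Pool.Agent.H7.KM

open Pool.Agent.H59.KY Pool.Agent.H94.KM

section Relabel

variable {Y : Cartan}

/-- the crystal with the nodes relabelled by a symmetry of the Cartan matrix -/
def relabel (X : Crystal Y) (t : Y.I → Y.I) (ht : ∀ k l, Y.A (t k) (t l) = Y.A k l) :
    Crystal Y where
  B := X.B
  wt := fun b k => X.wt b (t k)
  e := fun k => X.e (t k)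
  f := fun k => X.f (t k)
  eps := fun k => X.eps (t k)
  phi := fun k => X.phi (t k)
  f_iff := fun k => X.f_iff (t k)
  wt_e := by
    intro k b b' h
    funext l
    have h1 := congrFun (X.wt_e (t k) b b' h) (t l)
    rw [Pi.add_apply, Cartan.al] at h1
    rw [Pi.add_apply, Cartan.al, h1, ht]
  eps_none := fun k => X.eps_none (t k)
  eps_some := fun k => X.eps_some (t k)
  phi_none := fun k => X.phi_none (t k)
  phi_some := fun k => X.phi_some (t k)
  phi_eps := fun k => X.phi_eps (t k)

theorem St.relabel {X : Crystal Y} (h : St X) (t : Y.I → Y.I)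
    (ht : ∀ k l, Y.A (t k) (t l) = Y.A k l) (hi : Function.Injective t) :
    St (Pool.Agent.H7.KM.relabel X t ht) := by
  constructor
  · exact ⟨fun i j x x' hij hx => h.1.s1 (t i) (t j) x x' (fun h2 => hij (hi h2)) hx,
      fun i j x a b hij => h.1.s5 (t i) (t j) x a b (fun h2 => hij (hi h2)),
      fun i j x a b hij => h.1.s6 (t i) (t j) x a b (fun h2 => hij (hi h2))⟩
  · exact ⟨fun i j x x' hij hx => h.2.s1 (t i) (t j) x x' (fun h2 => hij (hi h2)) hx,
      fun i j x a b hij => h.2.s5 (t i) (t j) x a b (fun h2 => hij (hi h2)),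
      fun i j x a b hij => h.2.s6 (t i) (t j) x a b (fun h2 => hij (hi h2))⟩

theorem relabel_fword (X : Crystal Y) (t : Y.I → Y.I)
    (ht : ∀ k l, Y.A (t k) (t l) = Y.A k l) (l : List Y.I) (b : X.B) :
    (relabel X t ht).fword l b = X.fword (l.map t) b := by
  induction l with
  | nil => rfl
  | cons k l ih =>
    show ((relabel X t ht).fword l b).bind (X.f (t k)) = (X.fword (l.map t) b).bind (X.f (t k))
    exact congrArg (fun o : Option X.B => o.bind (X.f (t k))) ih

end Relabel

variable {C : Cartan} {S : Sym C}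

/-- a crystal with a rotation -/
structure RC (S : Sym C) where
  X : Crystal S.Y
  st : St X
  g : Mor X (relabel X S.rot S.rot_A)

namespace RC

variable (R : RC S)

/-- the rotation of the elements -/
def m (b : R.X.B) : R.X.B := R.g.map b

theorem eps_rot (k : S.Y.I) (b : R.X.B) : R.X.eps (S.rot k) (R.m b) = R.X.eps k b :=
  R.g.eps_map k b

theorem phi_rot (k : S.Y.I) (b : R.X.B) : R.X.phi (S.rot k) (R.m b) = R.X.phi k b :=
  R.g.phi_map k b

theorem wt_rot (k : S.Y.I) (b : R.X.B) : R.X.wt (R.m b) (S.rot k) = R.X.wt b k :=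
  congrFun (R.g.map_wt b) k

theorem fword_rot (i : C.I) (b b' : R.X.B) (h : R.X.fword (S.orb i) b = some b') :
    R.X.fword (S.orb i) (R.m b) = some (R.m b') := by
  have h1 : (relabel R.X S.rot S.rot_A).fword (S.orb i) (R.m b) = some (R.m b') := by
    have h0 := R.g.fword_map (S.orb i) b
    rw [h] at h0
    exact h0
  have h3 := relabel_fword R.X S.rot S.rot_A (S.orb i) (R.m b)
  have h2 : R.X.fword ((S.orb i).map S.rot) (R.m b) = R.X.fword (S.orb i) (R.m b) := by
    refine (St.orthC R.st).fword_perm (S.orb_rot i) ?_ _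
    exact (S.orb_pairwise i).perm (S.orb_rot i).symm (fun {a b} hab => hab.symm)
  exact h2.symm.trans (h3.symm.trans h1)

/-- fixed elements -/
def Fx : Type := {b : R.X.B // R.m b = b}

theorem eps_const (b : R.X.B) (hb : R.m b = b) (k : S.Y.I) :
    R.X.eps k b = R.X.eps (S.k0 (S.pr k)) b := by
  refine S.orbit_induct (fun k => R.X.eps k b = R.X.eps (S.k0 (S.pr k)) b) (fun i => ?_)
    (fun k hk => ?_) k
  · rw [S.pr_k0]
  · rw [S.pr_rot, ← hk]
    have := R.eps_rot k b
    rw [hb] at this
    exact this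

theorem phi_const (b : R.X.B) (hb : R.m b = b) (k : S.Y.I) :
    R.X.phi k b = R.X.phi (S.k0 (S.pr k)) b := by
  refine S.orbit_induct (fun k => R.X.phi k b = R.X.phi (S.k0 (S.pr k)) b) (fun i => ?_)
    (fun k hk => ?_) k
  · rw [S.pr_k0]
  · rw [S.pr_rot, ← hk]
    have := R.phi_rot k b
    rw [hb] at this
    exact this

theorem wt_const (b : R.X.B) (hb : R.m b = b) (k : S.Y.I) :
    R.X.wt b k = R.X.wt b (S.k0 (S.pr k)) := by
  have h1 := R.X.phi_eps k b
  have h2 := R.X.phi_eps (S.k0 (S.pr k)) b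
  have h3 := R.eps_const b hb k
  have h4 := R.phi_const b hb k
  omega

theorem k0_mem (i : C.I) : S.k0 i ∈ S.orb i := by
  rw [S.mem_orb]
  exact S.pr_k0 i

/-- raising operators along an orbit -/
noncomputable def ew (i : C.I) (b : R.X.B) : Option R.X.B := (dual R.X).fword (S.orb i) b

/-- lowering operators along an orbit -/
noncomputable def fw (i : C.I) (b : R.X.B) : Option R.X.B := R.X.fword (S.orb i) b

theorem fw_iff (i : C.I) (b b' : R.X.B) : R.fw i b = some b' ↔ R.ew i b' = some b :=
  St.fword_inv R.st (S.orb i) (S.orb_pairwise i) b b'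

theorem fw_rot (i : C.I) (b b' : R.X.B) (h : R.fw i b = some b') :
    R.fw i (R.m b) = some (R.m b') := R.fword_rot i b b' h

/-- the lowering operator of the folding, on fixed elements -/
theorem fixed_of_f (i : C.I) (b b' : R.X.B) (hb : R.m b = b)
    (h : R.fw i b = some b') : R.m b' = b' := by
  have h1 := R.fw_rot i b b' h
  rw [hb, h] at h1
  exact (Option.some.inj h1).symm

theorem fixed_of_e (i : C.I) (b b' : R.X.B) (hb : R.m b = b)
    (h : R.ew i b = some b') : R.m b' = b' := by
  have h0 := (R.fw_iff i b' b).mpr h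
  have h1 := R.fw_rot i b' b h0
  rw [hb] at h1
  have h2 := (R.fw_iff i (R.m b') b).mp h1
  rw [h] at h2
  exact (Option.some.inj h2).symm

theorem ew_exists (i : C.I) (b : R.X.B) (hb : R.m b = b) (h : 0 < R.X.eps (S.k0 i) b) :
    ∃ b', R.ew i b = some b' :=
  (St.orthC (St.dual R.st)).fword_exists (S.orb i) (S.orb_pairwise i) b
    (fun k hk => by
      show 0 < R.X.eps k b
      rw [R.eps_const b hb k, (S.mem_orb i k).mp hk]
      exact h)

theorem fw_exists (i : C.I) (b : R.X.B) (hb : R.m b = b) (h : 0 < R.X.phi (S.k0 i) b) :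
    ∃ b', R.fw i b = some b' :=
  (St.orthC R.st).fword_exists (S.orb i) (S.orb_pairwise i) b
    (fun k hk => by
      show 0 < R.X.phi k b
      rw [R.phi_const b hb k, (S.mem_orb i k).mp hk]
      exact h)

/-- lift an option of elements to fixed elements -/
noncomputable def lift (o : Option R.X.B) : Option R.Fx :=
  o.bind (fun b' => if h : R.m b' = b' then some ⟨b', h⟩ else none)

theorem lift_eq_some (o : Option R.X.B) (c : R.Fx) : R.lift o = some c ↔ o = some c.1 := by
  unfold lift
  constructor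
  · intro h
    obtain ⟨d, hd1, hd2⟩ := Option.bind_eq_some_iff.mp h
    by_cases h3 : R.m d = d
    · rw [dif_pos h3] at hd2
      rw [hd1, ← Option.some.inj hd2]
    · rw [dif_neg h3] at hd2
      exact absurd hd2 (by simp)
  · intro h
    rw [h]
    show (if h : R.m c.1 = c.1 then some (⟨c.1, h⟩ : R.Fx) else none) = some c
    rw [dif_pos c.2]
    rfl

/-- the folded crystal -/
noncomputable def fold : Crystal C where
  B := R.Fx
  wt := fun b i => R.X.wt b.1 (S.k0 i)
  e := fun i b => R.lift (R.ew i b.1)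
  f := fun i b => R.lift (R.fw i b.1)
  eps := fun i b => R.X.eps (S.k0 i) b.1
  phi := fun i b => R.X.phi (S.k0 i) b.1
  f_iff := fun i b b' =>
    (R.lift_eq_some _ _).trans ((R.fw_iff i b.1 b'.1).trans (R.lift_eq_some _ _).symm)
  wt_e := by
    intro i b b' h
    have h0 := (R.fw_iff i b'.1 b.1).mpr ((R.lift_eq_some _ _).mp h)
    have h1 := wt_fword' R.X (S.orb i) b'.1 b.1 h0
    funext j
    have h2 := congrFun h1 (S.k0 j)
    rw [Pi.sub_apply, S.al_orb] at h2
    rw [Pi.add_apply, Cartan.al, h2]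
    ring
  eps_none := by
    intro i b h
    by_contra hne
    obtain ⟨b', hb'⟩ := R.ew_exists i b.1 b.2 (Nat.pos_of_ne_zero hne)
    have h1 : R.lift (R.ew i b.1) = some ⟨b', R.fixed_of_e i b.1 b' b.2 hb'⟩ :=
      (R.lift_eq_some _ _).mpr hb'
    rw [h] at h1
    exact absurd h1 (by simp)
  eps_some := fun i b b' h =>
    ((St.orthC (St.dual R.st)).fword_in (S.orb i) (S.orb_pairwise i) b.1 b'.1
      ((R.lift_eq_some _ _).mp h) (S.k0 i) (k0_mem i)).1
  phi_none := by
    intro i b h
    by_contra hne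
    obtain ⟨b', hb'⟩ := R.fw_exists i b.1 b.2 (Nat.pos_of_ne_zero hne)
    have h1 : R.lift (R.fw i b.1) = some ⟨b', R.fixed_of_f i b.1 b' b.2 hb'⟩ :=
      (R.lift_eq_some _ _).mpr hb'
    rw [h] at h1
    exact absurd h1 (by simp)
  phi_some := fun i b b' h =>
    ((St.orthC R.st).fword_in (S.orb i) (S.orb_pairwise i) b.1 b'.1
      ((R.lift_eq_some _ _).mp h) (S.k0 i) (k0_mem i)).1
  phi_eps := fun i b => R.X.phi_eps (S.k0 i) b.1

end RC

end Pool.Agent.H7.KM
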