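import Pool.Agent.H59.KY.Defs

/-!
Unfolding of a Cartan matrix of finite type into a simply laced one: the linear algebra.
-/

set_option autoImplicit false

open scoped Classical

namespace Pool.Agent.H7.KM

open Pool.Agent.H59.KY

section MMatrix

variable {ι : Type} [Fintype ι] (M : ι → ι → ℚ)

/-- a positive definite matrix with nonpositive entries off the diagonal has a positive inverse -/
theorem exists_pos_vec (ho : ∀ i j, i ≠ j → M i j ≤ 0)
    (hp : ∀ x : ι → ℚ, x ≠ 0 → 0 < ∑ i, ∑ j, M i j * x i * x j) :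
    ∃ v : ι → ℚ, (∀ i, 0 < v i) ∧ ∀ i, ∑ j, M i j * v j = 1 := by
  let L : (ι → ℚ) →ₗ[ℚ] (ι → ℚ) :=
    { toFun := fun x i => ∑ j, M i j * x j
      map_add' := by
        intro x y
        funext i
        simp only [Pi.add_apply, mul_add, Finset.sum_add_distrib]
      map_smul' := by
        intro r x
        funext i
        simp only [Pi.smul_apply, smul_eq_mul, RingHom.id_apply, Finset.mul_sum]
        refine Finset.sum_congr rfl fun j _ => by ring }
  have hquad : ∀ x : ι → ℚ, ∑ i, x i * L x i = ∑ i, ∑ j, M i j * x i * x j := by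
    intro x
    refine Finset.sum_congr rfl fun i _ => ?_
    show x i * ∑ j, M i j * x j = _
    rw [Finset.mul_sum]
    refine Finset.sum_congr rfl fun j _ => by ring
  have hinj : Function.Injective L := by
    rw [← LinearMap.ker_eq_bot, LinearMap.ker_eq_bot']
    intro x hx
    by_contra hne
    have h1 := hp x hne
    rw [← hquad x, hx] at h1
    simp at h1
  have hsurj : Function.Surjective L := LinearMap.injective_iff_surjective.mp hinj
  obtain ⟨v, hv⟩ := hsurj (fun _ => 1)
  have hv1 : ∀ i, ∑ j, M i j * v j = 1 := fun i => congrFun hv i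
  refine ⟨v, ?_, hv1⟩
  set w : ι → ℚ := fun i => min (v i) 0 with hw
  set p : ι → ℚ := fun i => max (v i) 0 with hpd
  have hvw : ∀ i, v i = p i + w i := by
    intro i
    simp only [hw, hpd]
    rw [max_add_min, add_zero]
  have hwle : ∀ i, w i ≤ 0 := fun i => min_le_right _ _
  have hple : ∀ i, 0 ≤ p i := fun i => le_max_right _ _
  have hwp : ∀ i, w i * p i = 0 := by
    intro i
    simp only [hw, hpd]
    rcases le_total (v i) 0 with h | h
    · rw [max_eq_right h, mul_zero]
    · rw [min_eq_right h, zero_mul]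
  have h1 : ∑ i, w i = ∑ i, ∑ j, M i j * w i * p j + ∑ i, ∑ j, M i j * w i * w j := by
    rw [← Finset.sum_add_distrib]
    refine Finset.sum_congr rfl fun i _ => ?_
    rw [← Finset.sum_add_distrib]
    calc w i = w i * ∑ j, M i j * v j := by rw [hv1 i, mul_one]
      _ = _ := by
        rw [Finset.mul_sum]
        refine Finset.sum_congr rfl fun j _ => ?_
        rw [hvw j]
        ring
  have h2 : 0 ≤ ∑ i, ∑ j, M i j * w i * p j := by
    refine Finset.sum_nonneg fun i _ => Finset.sum_nonneg fun j _ => ?_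
    by_cases hij : i = j
    · subst hij
      rw [mul_assoc, hwp, mul_zero]
    · exact mul_nonneg (mul_nonneg_of_nonpos_of_nonpos (ho i j hij) (hwle i)) (hple j)
  have h3 : ∑ i, w i ≤ 0 := Finset.sum_nonpos fun i _ => hwle i
  have hw0 : w = 0 := by
    by_contra hne
    have := hp w hne
    linarith
  have hv0 : ∀ i, 0 ≤ v i := by
    intro i
    have := congrFun hw0 i
    simp only [hw, Pi.zero_apply, min_eq_right_iff] at this
    exact this
  intro i
  rcases (hv0 i).lt_or_eq with h | h
  · exact h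
  · exfalso
    have h4 := hv1 i
    have h5 : ∑ j, M i j * v j ≤ 0 := by
      refine Finset.sum_nonpos fun j _ => ?_
      by_cases hij : i = j
      · subst hij
        rw [← h, mul_zero]
      · exact mul_nonpos_of_nonpos_of_nonneg (ho i j hij) (hv0 j)
    linarith

/-- a symmetric matrix with nonpositive entries off the diagonal and a positive vector with positive
image is positive definite -/
theorem pos_of_vec (hs : ∀ i j, M i j = M j i) (ho : ∀ i j, i ≠ j → M i j ≤ 0)
    (v : ι → ℚ) (hv : ∀ i, 0 < v i) (hMv : ∀ i, 0 < ∑ j, M i j * v j) (x : ι → ℚ) (hx : x ≠ 0) :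
    0 < ∑ i, ∑ j, M i j * x i * x j := by
  have hne : ∀ i, v i ≠ 0 := fun i => (hv i).ne'
  set t : ι → ℚ := fun i => x i / v i with ht
  have hxt : ∀ i, x i = v i * t i := by
    intro i
    simp only [ht]
    rw [mul_div_cancel₀ _ (hne i)]
  have h1 : ∑ i, ∑ j, M i j * v i * v j * ((t i ^ 2 + t j ^ 2) / 2) ≤
      ∑ i, ∑ j, M i j * x i * x j := by
    refine Finset.sum_le_sum fun i _ => Finset.sum_le_sum fun j _ => ?_
    rw [hxt i, hxt j]
    by_cases hij : i = j
    · subst hij
      apply le_of_eq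
      ring
    · have ha : M i j * v i * v j ≤ 0 :=
        mul_nonpos_of_nonpos_of_nonneg (mul_nonpos_of_nonpos_of_nonneg (ho i j hij) (hv i).le)
          (hv j).le
      have hb : t i * t j ≤ (t i ^ 2 + t j ^ 2) / 2 := by nlinarith [sq_nonneg (t i - t j)]
      have := mul_le_mul_of_nonpos_left hb ha
      calc M i j * v i * v j * ((t i ^ 2 + t j ^ 2) / 2) ≤ M i j * v i * v j * (t i * t j) := this
        _ = _ := by ring
  have h2 : ∑ i, ∑ j, M i j * v i * v j * ((t i ^ 2 + t j ^ 2) / 2) =
      ∑ i, v i * t i ^ 2 * ∑ j, M i j * v j := by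
    have ha : ∑ i, ∑ j, M i j * v i * v j * ((t i ^ 2 + t j ^ 2) / 2) =
        ∑ i, ∑ j, M i j * v i * v j * (t i ^ 2 / 2) + ∑ i, ∑ j, M i j * v i * v j * (t j ^ 2 / 2) := by
      rw [← Finset.sum_add_distrib]
      refine Finset.sum_congr rfl fun i _ => ?_
      rw [← Finset.sum_add_distrib]
      refine Finset.sum_congr rfl fun j _ => by ring
    have hb : ∑ i, ∑ j, M i j * v i * v j * (t j ^ 2 / 2) =
        ∑ i, ∑ j, M i j * v i * v j * (t i ^ 2 / 2) := by
      rw [Finset.sum_comm]
      refine Finset.sum_congr rfl fun i _ => Finset.sum_congr rfl fun j _ => ?_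
      rw [hs j i]
      ring
    rw [ha, hb, ← Finset.sum_add_distrib]
    refine Finset.sum_congr rfl fun i _ => ?_
    rw [← Finset.sum_add_distrib, Finset.mul_sum]
    refine Finset.sum_congr rfl fun j _ => by ring
  have h3 : 0 < ∑ i, v i * t i ^ 2 * ∑ j, M i j * v j := by
    have hex : ∃ i, t i ≠ 0 := by
      by_contra hcon
      push Not at hcon
      exact hx (funext fun i => by rw [hxt i, hcon i, mul_zero]; rfl)
    obtain ⟨i0, hi0⟩ := hex
    refine Finset.sum_pos' (fun i _ => ?_) ⟨i0, Finset.mem_univ _, ?_⟩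
    · exact mul_nonneg (mul_nonneg (hv i).le (sq_nonneg _)) (hMv i).le
    · exact mul_pos (mul_pos (hv i0) (by positivity)) (hMv i0)
  rw [h2] at h1
  exact lt_of_lt_of_le h3 h1

end MMatrix

variable (C : Cartan)

/-- an integral symmetriser -/
theorem exists_int_sym : ∃ n : C.I → ℕ, (∀ i, 0 < n i) ∧
    (∀ i j, (n i : ℤ) * C.A i j = n j * C.A j i) ∧
    ∀ x : C.I → ℚ, x ≠ 0 → 0 < ∑ i, ∑ j, (n i : ℚ) * C.A i j * x i * x j := by
  obtain ⟨d, hd, hsym, hpos⟩ := C.pos
  set D : ℕ := ∏ i, (d i).den with hD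
  have hDpos : 0 < D := Finset.prod_pos fun i _ => (d i).den_pos
  have hex : ∀ i, ∃ m : ℕ, (m : ℚ) = d i * D := by
    intro i
    have hdvd : (d i).den ∣ D := Finset.dvd_prod_of_mem _ (Finset.mem_univ i)
    obtain ⟨k, hk⟩ := hdvd
    refine ⟨(d i).num.toNat * k, ?_⟩
    have hnum : 0 ≤ (d i).num := Rat.num_nonneg.mpr (hd i).le
    have h1 : ((d i).num.toNat : ℚ) = (d i).num := by
      exact_mod_cast Int.toNat_of_nonneg hnum
    rw [Nat.cast_mul, h1, hk, Nat.cast_mul]
    have h2 : (d i) * ((d i).den : ℚ) = (d i).num := Rat.mul_den_eq_num (d i)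
    rw [← mul_assoc, h2]
  choose n hn using hex
  have hDq : (0 : ℚ) < D := by exact_mod_cast hDpos
  refine ⟨n, fun i => ?_, fun i j => ?_, fun x hx => ?_⟩
  · have : (0 : ℚ) < n i := by rw [hn i]; exact mul_pos (hd i) hDq
    exact_mod_cast this
  · have : ((n i : ℚ)) * C.A i j = n j * C.A j i := by
      rw [hn i, hn j]
      have := hsym i j
      linear_combination (D : ℚ) * this
    exact_mod_cast this
  · have h1 : ∑ i, ∑ j, (n i : ℚ) * C.A i j * x i * x j =
        D * ∑ i, ∑ j, d i * C.A i j * x i * x j := by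
      rw [Finset.mul_sum]
      refine Finset.sum_congr rfl fun i _ => ?_
      rw [Finset.mul_sum]
      refine Finset.sum_congr rfl fun j _ => ?_
      rw [hn i]
      ring
    rw [h1]
    exact mul_pos hDq (hpos x hx)

end Pool.Agent.H7.KM
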