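import Pool.Agent.H94.KM.Tools
import Pool.Agent.H59.KY.Strings

/-!
Words of pairwise orthogonal nodes in a Stembridge crystal.
-/

set_option autoImplicit false

open scoped Classical

namespace Pool.Agent.H7.KM

open Pool.Agent.H59.KY Pool.Agent.H94.KM

variable {Y : Cartan}

/-- orthogonal nodes -/
def Orth (Y : Cartan) (k l : Y.I) : Prop := k ≠ l ∧ Y.A k l = 0 ∧ Y.A l k = 0

theorem Orth.symm {k l : Y.I} (h : Orth Y k l) : Orth Y l k := ⟨Ne.symm h.1, h.2.2, h.2.1⟩

/-- `f_k`, `f_l` commute for orthogonal nodes -/
structure OrthC (X : Crystal Y) : Prop where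
  eps : ∀ k l b b', Orth Y k l → X.f k b = some b' → X.eps l b' = X.eps l b
  phi : ∀ k l b b', Orth Y k l → X.f k b = some b' → X.phi l b' = X.phi l b
  comm : ∀ k l b a c, Orth Y k l → X.f k b = some a → X.f l b = some c →
    ∃ w, X.f l a = some w ∧ X.f k c = some w

theorem StE.epsphi {X : Crystal Y} (h : StE X) (k l : Y.I) (b b' : X.B) (ho : Orth Y k l)
    (he : X.e k b = some b') : X.eps l b' = X.eps l b ∧ X.phi l b' = X.phi l b := by
  have h1 := h.s1 k l b b' ho.1 he
  have h2 := X.wt_e k b b' he
  have h3 := X.phi_eps l b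
  have h4 := X.phi_eps l b'
  rw [h2, Pi.add_apply, Cartan.al, ho.2.2, add_zero] at h4
  omega

theorem St.orthC {X : Crystal Y} (h : St X) : OrthC X := by
  have h2 := h.2
  refine ⟨fun k l b b' ho hf => ?_, fun k l b b' ho hf => ?_, fun k l b a c ho ha hc => ?_⟩
  · exact (StE.epsphi h2 k l b b' ho hf).2
  · exact (StE.epsphi h2 k l b b' ho hf).1
  · have h3 := (StE.epsphi h2 k l b a ho ha).1
    obtain ⟨w, hw1, hw2, -⟩ := h2.s5 k l b a c ho.1 ha hc h3
    exact ⟨w, hw1, hw2⟩

theorem OrthC.comm_bind {X : Crystal Y} (h : OrthC X) (k l : Y.I) (ho : Orth Y k l) (b : X.B) :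
    (X.f l b).bind (X.f k) = (X.f k b).bind (X.f l) := by
  cases h1 : X.f l b with
  | none =>
    cases h2 : X.f k b with
    | none => rfl
    | some a =>
      have h3 := h.phi k l b a ho h2
      rw [X.phi_none l b h1] at h3
      cases h4 : X.f l a with
      | none => simp [h4]
      | some w =>
        have := X.phi_some l a w h4
        omega
  | some c =>
    cases h2 : X.f k b with
    | none =>
      have h3 := h.phi l k b c ho.symm h1
      rw [X.phi_none k b h2] at h3
      cases h4 : X.f k c with
      | none => simp [h4]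
      | some w =>
        have := X.phi_some k c w h4
        omega
    | some a =>
      obtain ⟨w, hw1, hw2⟩ := h.comm k l b a c ho h2 h1
      simp [hw1, hw2]

theorem fword_append (X : Crystal Y) (l l' : List Y.I) (b : X.B) :
    X.fword (l ++ l') b = (X.fword l' b).bind (X.fword l) := by
  induction l with
  | nil =>
    cases h : X.fword l' b with
    | none => simp [h]
    | some c => simp [h, Crystal.fword]
  | cons k l ih =>
    show (X.fword (l ++ l') b).bind (X.f k) = _
    rw [ih]
    cases h : X.fword l' b with
    | none => rfl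
    | some c => rfl

theorem OrthC.fword_perm {X : Crystal Y} (h : OrthC X) {l l' : List Y.I} (p : l.Perm l') :
    l.Pairwise (Orth Y) → ∀ b : X.B, X.fword l b = X.fword l' b := by
  induction p with
  | nil => intro _ b; rfl
  | cons x _ ih =>
    intro hl b
    rw [List.pairwise_cons] at hl
    show (X.fword _ b).bind (X.f x) = (X.fword _ b).bind (X.f x)
    rw [ih hl.2 b]
  | swap x y l =>
    intro hl b
    rw [List.pairwise_cons, List.pairwise_cons] at hl
    show ((X.fword l b).bind (X.f x)).bind (X.f y) = ((X.fword l b).bind (X.f y)).bind (X.f x)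
    have ho : Orth Y y x := hl.1 x (List.mem_cons_self)
    cases h1 : X.fword l b with
    | none => rfl
    | some c => exact h.comm_bind y x ho c
  | trans p1 _ ih1 ih2 =>
    intro hl b
    rw [ih1 hl b]
    exact ih2 (hl.perm p1 (fun {a b} hab => hab.symm)) b

/-- existence -/
theorem OrthC.fword_exists {X : Crystal Y} (h : OrthC X) (l : List Y.I) :
    l.Pairwise (Orth Y) → ∀ b : X.B, (∀ k ∈ l, 0 < X.phi k b) → ∃ b', X.fword l b = some b' := by
  induction l with
  | nil => intro _ b _; exact ⟨b, rfl⟩
  | cons k l ih =>
    intro hl b hb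
    rw [List.pairwise_cons] at hl
    obtain ⟨c, hc⟩ := ih hl.2 b (fun m hm => hb m (List.mem_cons_of_mem _ hm))
    have key : ∀ (l : List Y.I), (∀ m ∈ l, Orth Y k m) → ∀ c, X.fword l b = some c →
        X.phi k c = X.phi k b := by
      intro l
      induction l with
      | nil =>
        intro _ c hc
        have : b = c := Option.some.inj hc
        rw [this]
      | cons m l ih2 =>
        intro hm c hc
        change (X.fword l b).bind (X.f m) = some c at hc
        rw [Option.bind_eq_some_iff] at hc
        obtain ⟨d, hd1, hd2⟩ := hc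
        rw [h.phi m k d c (hm m (List.mem_cons_self)).symm hd2]
        exact ih2 (fun x hx => hm x (List.mem_cons_of_mem _ hx)) d hd1
    have h1 := key l hl.1 c hc
    have h2 : 0 < X.phi k c := by rw [h1]; exact hb k (List.mem_cons_self)
    obtain ⟨b', hb'⟩ := Crystal.f_ne_none (X := X) k c h2
    exact ⟨b', by show (X.fword l b).bind (X.f k) = some b'; rw [hc]; exact hb'⟩

/-- changes outside of the word -/
theorem OrthC.fword_out {X : Crystal Y} (h : OrthC X) (l : List Y.I) :
    ∀ b b' : X.B, X.fword l b = some b' → ∀ k, (∀ m ∈ l, Orth Y k m) →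
      X.phi k b' = X.phi k b ∧ X.eps k b' = X.eps k b := by
  induction l with
  | nil =>
    intro b b' hb k _
    have : b = b' := Option.some.inj hb
    rw [this]
    exact ⟨rfl, rfl⟩
  | cons m l ih =>
    intro b b' hb k hk
    change (X.fword l b).bind (X.f m) = some b' at hb
    rw [Option.bind_eq_some_iff] at hb
    obtain ⟨d, hd1, hd2⟩ := hb
    have h1 := ih b d hd1 k (fun x hx => hk x (List.mem_cons_of_mem _ hx))
    have h2 := h.phi m k d b' (hk m (List.mem_cons_self)).symm hd2
    have h3 := h.eps m k d b' (hk m (List.mem_cons_self)).symm hd2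
    exact ⟨h2.trans h1.1, h3.trans h1.2⟩

/-- changes inside of the word -/
theorem OrthC.fword_in {X : Crystal Y} (h : OrthC X) (l : List Y.I) :
    l.Pairwise (Orth Y) → ∀ b b' : X.B, X.fword l b = some b' → ∀ k ∈ l,
      X.phi k b = X.phi k b' + 1 ∧ X.eps k b' = X.eps k b + 1 := by
  induction l with
  | nil => intro _ b b' _ k hk; exact absurd hk List.not_mem_nil
  | cons m l ih =>
    intro hl b b' hb k hk
    rw [List.pairwise_cons] at hl
    change (X.fword l b).bind (X.f m) = some b' at hb
    rw [Option.bind_eq_some_iff] at hb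
    obtain ⟨d, hd1, hd2⟩ := hb
    rcases List.mem_cons.mp hk with rfl | hk
    · have h1 := h.fword_out l b d hd1 k hl.1
      have h2 := X.phi_some k d b' hd2
      have h3 := X.eps_some k b' d ((X.f_iff k d b').mp hd2)
      omega
    · have h1 := ih hl.2 b d hd1 k hk
      have h2 := h.phi m k d b' (hl.1 k hk) hd2
      have h3 := h.eps m k d b' (hl.1 k hk) hd2
      omega

/-- weights along words -/
theorem wt_fword' (X : Crystal Y) (l : List Y.I) : ∀ b b' : X.B, X.fword l b = some b' →
    X.wt b' = X.wt b - (l.map Y.al).sum := by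
  induction l with
  | nil =>
    intro b b' hb
    have : b = b' := Option.some.inj hb
    rw [this]
    simp
  | cons m l ih =>
    intro b b' hb
    change (X.fword l b).bind (X.f m) = some b' at hb
    rw [Option.bind_eq_some_iff] at hb
    obtain ⟨d, hd1, hd2⟩ := hb
    have h1 := ih b d hd1
    have h2 := X.wt_e m b' d ((X.f_iff m d b').mp hd2)
    rw [List.map_cons, List.sum_cons]
    have h3 : X.wt b' = X.wt d - Y.al m := by rw [h2]; abel
    rw [h3, h1]
    abel

theorem fword_rev (X : Crystal Y) (l : List Y.I) : ∀ b b' : X.B,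
    X.fword l b = some b' ↔ (dual X).fword l.reverse b' = some b := by
  induction l with
  | nil =>
    intro b b'
    constructor
    · intro h
      have : b = b' := Option.some.inj h
      rw [this]
      rfl
    · intro h
      have : b' = b := Option.some.inj h
      rw [this]
      rfl
  | cons k l ih =>
    intro b b'
    rw [List.reverse_cons, fword_append]
    constructor
    · intro h
      change (X.fword l b).bind (X.f k) = some b' at h
      rw [Option.bind_eq_some_iff] at h
      obtain ⟨d, hd1, hd2⟩ := h
      have h1 : (dual X).fword [k] b' = some d := by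
        show (some b').bind ((dual X).f k) = some d
        exact (X.f_iff k d b').mp hd2
      rw [h1]
      exact (ih b d).mp hd1
    · intro h
      obtain ⟨d, hd1, hd2⟩ := Option.bind_eq_some_iff.mp h
      have h1 : X.f k d = some b' := (X.f_iff k d b').mpr hd1
      have h2 := (ih b d).mpr hd2
      show (X.fword l b).bind (X.f k) = some b'
      rw [h2]
      exact h1

/-- inverse of a word of pairwise orthogonal nodes -/
theorem St.fword_inv {X : Crystal Y} (h : St X) (l : List Y.I) (hl : l.Pairwise (Orth Y))
    (b b' : X.B) : X.fword l b = some b' ↔ (Pool.Agent.H94.KM.dual X).fword l b' = some b := by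
  rw [fword_rev]
  have h1 : l.reverse.Pairwise (Orth Y) := by
    rw [List.pairwise_reverse]
    exact hl.imp (fun {a b} hab => hab.symm)
  rw [(St.orthC (St.dual h)).fword_perm (List.reverse_perm l) h1 b']

end Pool.Agent.H7.KM
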