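import Pool.Agent.H7.KM.Unf
import Pool.Agent.H7.KM.Words

/-!
The rotation of the unfolded Cartan matrix, relabelled crystals.
-/

set_option autoImplicit false

open scoped Classical

namespace Pool.Agent.H7.KM

open Pool.Agent.H59.KY Pool.Agent.H94.KM

theorem rot_lt (N : ℕ) (c : Fin N) (h : (c : ℕ) + 1 < N) : (finRotate N c : ℕ) = c + 1 := by
  cases N with
  | zero => exact c.elim0
  | succ n =>
    rw [coe_finRotate, if_neg]
    intro h2
    rw [h2, Fin.val_last] at h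
    omega

theorem rot_mod (N g : ℕ) (hg : g ∣ N) (c : Fin N) :
    (finRotate N c : ℕ) % g = ((c : ℕ) + 1) % g := by
  cases N with
  | zero => exact c.elim0
  | succ n =>
    rw [coe_finRotate]
    split_ifs with h
    · rw [h, Fin.val_last, Nat.mod_eq_zero_of_dvd hg, Nat.zero_mod]
    · rfl

variable {C : Cartan} (S : Sym C)

/-- the rotation of the nodes of the unfolded matrix -/
def Sym.rot0 : Equiv.Perm (Σ i : C.I, Fin (S.n i)) :=
  Equiv.sigmaCongrRight (fun i => finRotate (S.n i))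

theorem Sym.rot0_A (k l : Σ i : C.I, Fin (S.n i)) :
    S.YA (S.rot0 k) (S.rot0 l) = S.YA k l := by
  obtain ⟨i, c⟩ := k
  obtain ⟨j, c'⟩ := l
  unfold Sym.YA
  have h1 : (S.rot0 ⟨i, c⟩ = S.rot0 ⟨j, c'⟩) ↔ ((⟨i, c⟩ : Σ i : C.I, Fin (S.n i)) = ⟨j, c'⟩) :=
    S.rot0.injective.eq_iff
  by_cases h : (⟨i, c⟩ : Σ i : C.I, Fin (S.n i)) = ⟨j, c'⟩
  · rw [if_pos (h1.mpr h), if_pos h]
  · rw [if_neg (fun h2 => h (h1.mp h2)), if_neg h]
    have h2 : ((finRotate (S.n i) c : ℕ) % Nat.gcd (S.n i) (S.n j) =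
        (finRotate (S.n j) c' : ℕ) % Nat.gcd (S.n i) (S.n j)) ↔
        ((c : ℕ) % Nat.gcd (S.n i) (S.n j) = (c' : ℕ) % Nat.gcd (S.n i) (S.n j)) := by
      rw [rot_mod _ _ (Nat.gcd_dvd_left _ _), rot_mod _ _ (Nat.gcd_dvd_right _ _)]
      constructor
      · intro h3
        exact Nat.ModEq.add_right_cancel' 1 h3
      · intro h3
        exact Nat.ModEq.add_right 1 h3
    have h3 : (S.rot0 ⟨i, c⟩).1 = i := rfl
    have h4 : (S.rot0 ⟨j, c'⟩).1 = j := rfl
    have h5 : ((S.rot0 ⟨i, c⟩).2 : ℕ) = (finRotate (S.n i) c : ℕ) := rfl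
    have h6 : ((S.rot0 ⟨j, c'⟩).2 : ℕ) = (finRotate (S.n j) c' : ℕ) := rfl
    by_cases h7 : i ≠ j ∧ C.A i j ≠ 0 ∧
        (c : ℕ) % Nat.gcd (S.n i) (S.n j) = (c' : ℕ) % Nat.gcd (S.n i) (S.n j)
    · rw [if_pos h7, if_pos]
      exact ⟨h7.1, h7.2.1, h2.mpr h7.2.2⟩
    · rw [if_neg h7, if_neg]
      rintro ⟨h8, h9, h10⟩
      exact h7 ⟨h8, h9, h2.mp h10⟩

/-- the rotation of the nodes of the unfolded matrix -/
noncomputable def Sym.rot : Equiv.Perm S.Y.I := S.rot0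

theorem Sym.rot_A (k l : S.Y.I) : S.Y.A (S.rot k) (S.rot l) = S.Y.A k l := S.rot0_A k l

theorem Sym.sl : SL S.Y := by
  intro k l hkl
  have h1 := S.YA_off k l hkl
  have h2 := S.YA_symm k l
  show (S.YA k l = 0 ∧ S.YA l k = 0) ∨ (S.YA k l = -1 ∧ S.YA l k = -1)
  rw [← h2]
  rcases h1 with h | h
  · exact Or.inl ⟨h, h⟩
  · exact Or.inr ⟨h, h⟩

/-- first node of an orbit -/
noncomputable def Sym.k0 (i : C.I) : S.Y.I := (⟨i, ⟨0, S.npos i⟩⟩ : Σ i : C.I, Fin (S.n i))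

/-- the nodes over `i` -/
noncomputable def Sym.orb (i : C.I) : List S.Y.I :=
  (List.finRange (S.n i)).map (fun c => (⟨i, c⟩ : Σ i : C.I, Fin (S.n i)))

/-- the projection to the nodes of `C` -/
noncomputable def Sym.pr (k : S.Y.I) : C.I := (show Σ i : C.I, Fin (S.n i) from k).1

theorem Sym.pr_k0 (i : C.I) : S.pr (S.k0 i) = i := rfl

theorem Sym.pr_rot (k : S.Y.I) : S.pr (S.rot k) = S.pr k := rfl

theorem Sym.mem_orb (i : C.I) (k : S.Y.I) : k ∈ S.orb i ↔ S.pr k = i := by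
  unfold Sym.orb
  rw [List.mem_map]
  constructor
  · rintro ⟨c, _, rfl⟩
    rfl
  · intro h
    subst h
    exact ⟨(show Σ i : C.I, Fin (S.n i) from k).2, List.mem_finRange _, rfl⟩

theorem Sym.orth (k l : S.Y.I) (h : k ≠ l) (h1 : S.pr k = S.pr l) : Orth S.Y k l := by
  have key : ∀ k l : Σ i : C.I, Fin (S.n i), k ≠ l → k.1 = l.1 → S.YA k l = 0 := by
    intro k l h h1
    unfold Sym.YA
    rw [if_neg h, if_neg]
    rintro ⟨h2, -⟩
    exact h2 h1
  exact ⟨h, key k l h h1, key l k (Ne.symm h) h1.symm⟩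

theorem Sym.orb_nodup (i : C.I) : (S.orb i).Nodup := by
  unfold Sym.orb
  refine List.Nodup.map ?_ (List.nodup_finRange _)
  intro a b hab
  exact eq_of_heq (Sigma.mk.inj_iff.mp hab).2

theorem Sym.orb_pairwise (i : C.I) : (S.orb i).Pairwise (Orth S.Y) := by
  refine List.Pairwise.imp_of_mem ?_ (S.orb_nodup i)
  intro a b ha hb hab
  exact S.orth a b hab (((S.mem_orb i a).mp ha).trans ((S.mem_orb i b).mp hb).symm)

theorem Sym.orb_rot (i : C.I) : ((S.orb i).map S.rot).Perm (S.orb i) := by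
  rw [List.perm_ext_iff_of_nodup ((S.orb_nodup i).map S.rot.injective) (S.orb_nodup i)]
  intro k
  rw [List.mem_map, S.mem_orb]
  constructor
  · rintro ⟨l, hl, rfl⟩
    exact (S.mem_orb i l).mp hl
  · intro h
    refine ⟨S.rot.symm k, ?_, S.rot.apply_symm_apply k⟩
    rw [S.mem_orb, ← S.pr_rot, S.rot.apply_symm_apply]
    exact h

/-- sum of a column over an orbit -/
theorem Sym.al_orb (i j : C.I) : (((S.orb i).map S.Y.al).sum : S.Y.Wt) (S.k0 j) = C.A j i := by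
  have h1 : ∀ (l : List S.Y.I) (k : S.Y.I),
      ((l.map S.Y.al).sum : S.Y.Wt) k = (l.map (fun m => S.Y.A k m)).sum := by
    intro l k
    induction l with
    | nil => rfl
    | cons m l ih =>
      rw [List.map_cons, List.sum_cons, List.map_cons, List.sum_cons, Pi.add_apply, ih]
      rfl
  rw [h1]
  unfold Sym.orb
  rw [List.map_map]
  rw [← S.rowsum j i ⟨0, S.npos j⟩]
  rw [← List.sum_ofFn, List.ofFn_eq_map]
  rfl

/-- induction over the orbit -/
theorem Sym.orbit_induct (P : S.Y.I → Prop) (h0 : ∀ i, P (S.k0 i))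
    (h1 : ∀ k, P k → P (S.rot k)) (k : S.Y.I) : P k := by
  obtain ⟨i, c, hc⟩ := (show Σ i : C.I, Fin (S.n i) from k)
  have h2 : ∀ (m : ℕ) (hm : m < S.n i), P (⟨i, ⟨m, hm⟩⟩ : Σ i : C.I, Fin (S.n i)) := by
    intro m
    induction m with
    | zero => intro hm; exact h0 i
    | succ m ih =>
      intro hm
      have h3 := h1 _ (ih (by omega))
      have h4 : S.rot (⟨i, ⟨m, by omega⟩⟩ : Σ i : C.I, Fin (S.n i)) =
          (⟨i, ⟨m + 1, hm⟩⟩ : Σ i : C.I, Fin (S.n i)) := by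
        show (⟨i, finRotate (S.n i) ⟨m, by omega⟩⟩ : Σ i : C.I, Fin (S.n i)) = _
        congr 1
        exact Fin.ext (rot_lt _ _ hm)
      rw [h4] at h3
      exact h3
  exact h2 c hc

end Pool.Agent.H7.KM
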