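import Pool.Agent.H7.KM.FB

/-!
Diagram automorphisms on the unfolded matrix; dual crystals; the involution of the folded crystal.
-/

set_option autoImplicit false

open scoped Classical

namespace Pool.Agent.H7.KM

open Pool.Agent.H59.KY Pool.Agent.H94.KM

/-- an involution of the diagram compatible with the symmetrization -/
structure Star {C : Cartan} (S : Sym C) where
  t : C.I → C.I
  tt : ∀ i, t (t i) = i
  A : ∀ i j, C.A (t i) (t j) = C.A i j
  n : ∀ i, S.n (t i) = S.n i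

theorem fin_cast_rot {N M : ℕ} (h : N = M) (c : Fin N) :
    (finRotate M (Fin.cast h c) : ℕ) = finRotate N c := by
  subst h
  rfl

variable {C : Cartan} {S : Sym C}

theorem sigma_ext' {i j : C.I} (h : i = j) (c : Fin (S.n i)) (c' : Fin (S.n j))
    (hc : (c : ℕ) = c') : (⟨i, c⟩ : Σ i : C.I, Fin (S.n i)) = ⟨j, c'⟩ := by
  subst h
  have : c = c' := Fin.ext hc
  rw [this]

namespace Star

variable (T : Star S)

/-- the involution on the nodes of the unfolded matrix -/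
def st0 (k : Σ i : C.I, Fin (S.n i)) : Σ i : C.I, Fin (S.n i) :=
  ⟨T.t k.1, Fin.cast (T.n k.1).symm k.2⟩

theorem st0_st0 (k : Σ i : C.I, Fin (S.n i)) : T.st0 (T.st0 k) = k :=
  sigma_ext' (T.tt k.1) _ _ rfl

theorem st0_inj : Function.Injective T.st0 := by
  intro k l h
  rw [← T.st0_st0 k, h, T.st0_st0]

theorem st0_A (k l : Σ i : C.I, Fin (S.n i)) : S.YA (T.st0 k) (T.st0 l) = S.YA k l := by
  unfold Sym.YA
  by_cases h : k = l
  · rw [if_pos h, if_pos (congrArg T.st0 h)]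
  · rw [if_neg h, if_neg (fun h2 => h (T.st0_inj h2))]
    have h1 : (T.st0 k).1 = T.t k.1 := rfl
    have h2 : (T.st0 l).1 = T.t l.1 := rfl
    have h3 : ((T.st0 k).2 : ℕ) = k.2 := rfl
    have h4 : ((T.st0 l).2 : ℕ) = l.2 := rfl
    have h5 : T.t k.1 ≠ T.t l.1 ↔ k.1 ≠ l.1 := by
      constructor
      · intro h6 h7
        exact h6 (congrArg T.t h7)
      · intro h6 h7
        apply h6
        rw [← T.tt k.1, h7, T.tt]
    rw [h3, h4, h1, h2, T.A, T.n, T.n]
    by_cases h6 : k.1 ≠ l.1 ∧ C.A k.1 l.1 ≠ 0 ∧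
        (k.2 : ℕ) % Nat.gcd (S.n k.1) (S.n l.1) = (l.2 : ℕ) % Nat.gcd (S.n k.1) (S.n l.1)
    · rw [if_pos h6, if_pos ⟨h5.mpr h6.1, h6.2⟩]
    · rw [if_neg h6, if_neg (fun h7 => h6 ⟨h5.mp h7.1, h7.2⟩)]

theorem st0_rot (k : Σ i : C.I, Fin (S.n i)) : T.st0 (S.rot0 k) = S.rot0 (T.st0 k) := by
  obtain ⟨i, c⟩ := k
  exact sigma_ext' rfl _ _ (fin_cast_rot (T.n i).symm c).symm

/-- the involution on the nodes of the unfolded matrix -/
noncomputable def st : S.Y.I → S.Y.I := T.st0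

theorem st_st (k : S.Y.I) : T.st (T.st k) = k := T.st0_st0 k

theorem st_inj : Function.Injective T.st := T.st0_inj

theorem st_A (k l : S.Y.I) : S.Y.A (T.st k) (T.st l) = S.Y.A k l := T.st0_A k l

theorem st_rot (k : S.Y.I) : T.st (S.rot k) = S.rot (T.st k) := T.st0_rot k

theorem pr_st (k : S.Y.I) : S.pr (T.st k) = T.t (S.pr k) := rfl

theorem st_k0 (i : C.I) : T.st (S.k0 i) = S.k0 (T.t i) := sigma_ext' rfl _ _ rfl

theorem orb_st (i : C.I) : ((S.orb (T.t i)).map T.st).Perm (S.orb i) := by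
  rw [List.perm_ext_iff_of_nodup ((S.orb_nodup (T.t i)).map T.st_inj) (S.orb_nodup i)]
  intro k
  rw [List.mem_map, S.mem_orb]
  constructor
  · rintro ⟨l, hl, rfl⟩
    rw [T.pr_st, (S.mem_orb _ l).mp hl, T.tt]
  · intro h
    refine ⟨T.st k, ?_, T.st_st k⟩
    rw [S.mem_orb, T.pr_st, h]

end Star

end Pool.Agent.H7.KM
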