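import Pool.Agent.H7.KM.Star

/-!
The Schützenberger involution of the folded crystals.
-/

set_option autoImplicit false

open scoped Classical

namespace Pool.Agent.H7.KM

open Pool.Agent.H59.KY Pool.Agent.H94.KM

variable {C : Cartan} {S : Sym C} {nu : C.I → ℕ}

section

variable {Y : Cartan} {X : Crystal Y} {t : Y.I → Y.I} {ht : ∀ k l, Y.A (t k) (t l) = Y.A k l}

/-- the underlying map -/
def gm (g : Mor X (relabel (dual X) t ht)) (b : X.B) : X.B := g.map b

theorem gm_f (g : Mor X (relabel (dual X) t ht)) (k : Y.I) (b : X.B) :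
    X.f (t k) (gm g b) = (X.e k b).map (gm g) := g.map_e k b

theorem gm_e (g : Mor X (relabel (dual X) t ht)) (k : Y.I) (b : X.B) :
    X.e (t k) (gm g b) = (X.f k b).map (gm g) := g.map_f k b

theorem gm_wt (g : Mor X (relabel (dual X) t ht)) (k : Y.I) (b : X.B) :
    X.wt (gm g b) (t k) = - X.wt b k := by
  have h1 : - X.wt (gm g b) (t k) = X.wt b k := congrFun (g.map_wt b) k
  rw [← h1, neg_neg]

theorem gm_word (g : Mor X (relabel (dual X) t ht)) (l : List Y.I) (b : X.B) :
    (dual X).fword (l.map t) (gm (X := X) g b) = (X.fword l b).map (gm g) := by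
  have h1 := g.fword_map l b
  have h2 := relabel_fword (dual X) t ht l (gm (X := X) g b)
  exact h2.symm.trans h1

/-- the square of an involution of this kind is a morphism -/
def sqMor (g : Mor X (relabel (dual X) t ht)) (htt : ∀ k, t (t k) = k) : Mor X X where
  map := fun b => gm g (gm g b)
  map_e := by
    intro k b
    have h1 := gm_e g (t k) (gm g b)
    rw [gm_f, htt, Option.map_map] at h1
    exact h1
  map_f := by
    intro k b
    have h1 := gm_f g (t k) (gm g b)
    rw [gm_e, htt, Option.map_map] at h1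
    exact h1
  map_wt := by
    intro b
    funext k
    have h1 := gm_wt g (t k) (gm g b)
    have h2 := gm_wt g k b
    rw [htt, h2, neg_neg] at h1
    exact h1

/-- identity morphism -/
def idMor (X : Crystal Y) : Mor X X where
  map := fun b => b
  map_e := by
    intro i b
    cases X.e i b <;> rfl
  map_f := by
    intro i b
    cases X.f i b <;> rfl
  map_wt := fun _ => rfl

end

/-- the involution of the crystal upstairs -/
structure Inv (F : FB S nu) (T : Star S) where
  g : Mor F.R.X (relabel (dual F.R.X) T.st T.st_A)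
  comm : ∀ b, gm g (F.R.m b) = F.R.m (gm g b)
  inv : ∀ b, gm g (gm g b) = b

theorem m_e (R : RC S) (k : S.Y.I) (b : R.X.B) :
    R.X.e (S.rot k) (R.m b) = (R.X.e k b).map R.m := R.g.map_e k b

theorem m_f (R : RC S) (k : S.Y.I) (b : R.X.B) :
    R.X.f (S.rot k) (R.m b) = (R.X.f k b).map R.m := R.g.map_f k b

theorem exists_Inv (F : FB S nu) (T : Star S) (b' : F.R.fold.B)
    (hb' : ∀ i, F.R.fold.f i b' = none) (hw : ∀ i, F.R.fold.wt b' i = - (nu (T.t i) : ℤ)) :
    Nonempty (Inv F T) := by
  have h0 : ∀ k, F.R.X.phi k b'.1 = 0 := by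
    intro k
    rw [F.R.phi_const b'.1 b'.2 k]
    exact F.R.fold.phi_none (S.pr k) b' (hb' (S.pr k))
  have h1 : ∀ k, F.R.X.wt b'.1 k = - (nu (T.t (S.pr k)) : ℤ) := by
    intro k
    rw [F.R.wt_const b'.1 b'.2 k]
    exact hw (S.pr k)
  obtain ⟨g, hg, -⟩ := St.exists_mor S.sl F.R.st
    (St.relabel (St.dual F.R.st) T.st T.st_A T.st_inj) F.gen (u' := b'.1)
    (fun k => f_none_of_phi F.R.X _ _ (h0 (T.st k))) (by
      funext k
      show F.R.X.wt F.u k = - F.R.X.wt b'.1 (T.st k)
      rw [h1, neg_neg, T.pr_st, T.tt]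
      exact F.wt k)
  have hg' : gm g F.u = b'.1 := hg
  have hsq : ∀ b, gm g (gm g b) = b := by
    have h2 : (sqMor g T.st_st).map F.u = F.u := by
      refine gen_highest F.gen _ (fun k => ?_)
      rw [(sqMor g T.st_st).map_e, F.gen.1 k]
      rfl
    exact congrFun (mor_ext F.gen (sqMor g T.st_st) (idMor F.R.X) h2)
  have hcomm : ∀ b, gm g (F.R.m b) = F.R.m (gm g b) := by
    have hA : ∀ k l, S.Y.A (T.st (S.rot k)) (T.st (S.rot l)) = S.Y.A k l := by
      intro k l
      rw [T.st_A, S.rot_A]
    let G1 : Mor F.R.X (relabel (dual F.R.X) (fun k => T.st (S.rot k)) hA) :=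
      { map := fun b => gm (X := F.R.X) g (F.R.m b)
        map_e := by
          intro k b
          have h3 := gm_f g (S.rot k) (F.R.m b)
          rw [m_e, Option.map_map] at h3
          exact h3
        map_f := by
          intro k b
          have h3 := gm_e g (S.rot k) (F.R.m b)
          rw [m_f, Option.map_map] at h3
          exact h3
        map_wt := by
          intro b
          funext k
          show - F.R.X.wt (gm g (F.R.m b)) (T.st (S.rot k)) = F.R.X.wt b k
          rw [gm_wt, neg_neg]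
          exact F.R.wt_rot k b }
    let G2 : Mor F.R.X (relabel (dual F.R.X) (fun k => T.st (S.rot k)) hA) :=
      { map := fun b => F.R.m (gm (X := F.R.X) g b)
        map_e := by
          intro k b
          have h2 := m_f F.R (T.st k) (gm g b)
          rw [gm_f, Option.map_map, ← T.st_rot] at h2
          exact h2
        map_f := by
          intro k b
          have h2 := m_e F.R (T.st k) (gm g b)
          rw [gm_e, Option.map_map, ← T.st_rot] at h2
          exact h2
        map_wt := by
          intro b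
          funext k
          show - F.R.X.wt (F.R.m (gm g b)) (T.st (S.rot k)) = F.R.X.wt b k
          have h2 := F.R.wt_rot (T.st k) (gm g b)
          rw [T.st_rot, h2, gm_wt, neg_neg] }
    have h3 : G1.map F.u = G2.map F.u := by
      show gm g (F.R.m F.u) = F.R.m (gm g F.u)
      rw [F.fix, hg']
      exact b'.2.symm
    exact congrFun (Pool.Agent.H94.KM.mor_ext F.gen G1 G2 h3)
  exact ⟨⟨g, hcomm, hsq⟩⟩

namespace Inv

variable {F : FB S nu} {T : Star S} (J : Inv F T)

/-- the involution of the folded crystal -/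
noncomputable def xi (b : F.R.fold.B) : F.R.fold.B :=
  (⟨gm J.g b.1, by rw [← J.comm, b.2]⟩ : F.R.Fx)

theorem xi_xi (b : F.R.fold.B) : J.xi (J.xi b) = b := Subtype.ext (J.inv b.1)

theorem e_xi (i : C.I) (b : F.R.fold.B) :
    F.R.fold.e i (J.xi b) = (F.R.fold.f (T.t i) b).map J.xi := by
  have h1 : F.R.ew i (gm J.g b.1) = (F.R.fw (T.t i) b.1).map (gm J.g) := by
    rw [RC.fw, ← gm_word (X := F.R.X) J.g (S.orb (T.t i)) b.1]
    refine ((St.orthC (St.dual F.R.st)).fword_perm (T.orb_st i) ?_ _).symm
    exact (S.orb_pairwise i).perm (T.orb_st i).symm (fun {a b} hab => hab.symm)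
  show F.R.lift (F.R.ew i (gm J.g b.1)) = (F.R.lift (F.R.fw (T.t i) b.1)).map J.xi
  rw [h1]
  cases h2 : F.R.fw (T.t i) b.1 with
  | none => rfl
  | some c =>
    have h3 : F.R.m c = c := F.R.fixed_of_f (T.t i) b.1 c b.2 h2
    have h4 : F.R.lift (some c) = some ⟨c, h3⟩ := (F.R.lift_eq_some _ _).mpr rfl
    rw [h4]
    exact (F.R.lift_eq_some _ _).mpr rfl

theorem f_xi (i : C.I) (b : F.R.fold.B) :
    F.R.fold.f i (J.xi b) = (F.R.fold.e (T.t i) b).map J.xi := by
  have h1 := J.e_xi (T.t i) (J.xi b)
  rw [J.xi_xi, T.tt] at h1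
  rw [h1, Option.map_map]
  have h2 : J.xi ∘ J.xi = id := funext J.xi_xi
  rw [h2, Option.map_id]
  rfl

theorem wt_xi (i : C.I) (b : F.R.fold.B) :
    F.R.fold.wt (J.xi b) i = - F.R.fold.wt b (T.t i) := by
  show F.R.X.wt (gm J.g b.1) (S.k0 i) = - F.R.X.wt b.1 (S.k0 (T.t i))
  rw [← T.st_k0]
  have h1 := gm_wt J.g (T.st (S.k0 i)) b.1
  rw [T.st_st] at h1
  exact h1

end Inv

end Pool.Agent.H7.KM
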